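import Pool.Agent.Q221.WeakReset.Mach

set_option autoImplicit false

namespace Pool.Agent.Q221.WeakReset

open Turing

/-! The automaton of a Turing machine and its input. -/

/-- Letters: `none` is the resetting letter, `some none` the restarting letter, `some (some none)`
the frozen letter, the other letters are cells. -/
abbrev Lt (C : Type) := Option (Option (Option C))

/-- The states not depending on the input: `none` is the idle state. -/
abbrev Fx (C : Type) := Option (Bool ⊕ Option (C × C × C))

section

variable {Γ Λ : Type} [Inhabited Γ] [Inhabited Λ] (T : TM0.Machine Γ Λ)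

/-- the content of a cell -/
def cell (a : ACfg Γ Λ) (z : ℤ) : Γ × Option Λ := (a.t z, if z = a.h then some a.q else none)

/-- the state leaving the cell in direction `D` -/
def arr (x : Γ × Option Λ) (D : Dir) : Option Λ :=
  match x.2 with
  | none => none
  | some q => match T q x.1 with
    | some (q', .move D') => if D' = D then some q' else none
    | _ => none

/-- the new content of the middle cell -/
def upd (a b c : Γ × Option Λ) : Option (Γ × Option Λ) :=
  match b.2 with
  | some q => match T q b.1 with
    | none => none
    | some (_, .move _) => some (b.1, none)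
    | some (q', .write x) => some (x, some q')
  | none => some (b.1, (arr T a .right).or (arr T c .left))

theorem arr_cell_ne (a : ACfg Γ Λ) (z : ℤ) (D : Dir) (h : z ≠ a.h) : arr T (cell a z) D = none := by
  simp [arr, cell, h]

theorem arr_cell_eq (a : ACfg Γ Λ) (D : Dir) :
    arr T (cell a a.h) D = match T a.q (a.t a.h) with
    | some (q', .move D') => if D' = D then some q' else none
    | _ => none := by
  simp [arr, cell]

theorem upd_cell_ne (a : ACfg Γ Λ) (z : ℤ) (h : z ≠ a.h) :
    upd T (cell a (z - 1)) (cell a z) (cell a (z + 1)) =
      some (a.t z, (arr T (cell a (z - 1)) .right).or (arr T (cell a (z + 1)) .left)) := by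
  have : cell a z = (a.t z, none) := by simp [cell, h]
  rw [this]
  rfl

theorem upd_cell (a a' : ACfg Γ Λ) (h : astep T a = some a') (z : ℤ) :
    upd T (cell a (z - 1)) (cell a z) (cell a (z + 1)) = some (cell a' z) := by
  unfold astep at h
  rcases hT : T a.q (a.t a.h) with _ | ⟨q', D | x⟩
  · rw [hT] at h
    simp at h
  · rw [hT] at h
    by_cases hz : z = a.h
    · have e1 : cell a z = (a.t z, some a.q) := by simp [cell, hz]
      have e2 : upd T (cell a (z - 1)) (cell a z) (cell a (z + 1)) = some (a.t z, none) := by
        rw [e1]
        simp only [upd, hz, hT]
      rw [e2]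
      cases D
      · simp only [Option.some.injEq] at h
        subst h
        have : a.h ≠ a.h - 1 := by omega
        simp [cell, hz, this]
      · simp only [Option.some.injEq] at h
        subst h
        simp [cell, hz]
    · rw [upd_cell_ne T a z hz]
      by_cases h1 : z - 1 = a.h
      · have h2 : z + 1 ≠ a.h := by omega
        rw [arr_cell_ne T a _ _ h2, h1, arr_cell_eq, hT]
        cases D
        · simp only [Option.some.injEq] at h
          subst h
          have : z ≠ a.h - 1 := by omega
          simp [cell, this]
        · simp only [Option.some.injEq] at h
          subst h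
          have : z = a.h + 1 := by omega
          simp [cell, this]
      · by_cases h2 : z + 1 = a.h
        · rw [arr_cell_ne T a _ _ h1, h2, arr_cell_eq, hT]
          cases D
          · simp only [Option.some.injEq] at h
            subst h
            have : z = a.h - 1 := by omega
            simp [cell, this]
          · simp only [Option.some.injEq] at h
            subst h
            have : z ≠ a.h + 1 := by omega
            simp [cell, this]
        · rw [arr_cell_ne T a _ _ h1, arr_cell_ne T a _ _ h2]
          cases D
          · simp only [Option.some.injEq] at h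
            subst h
            have : z ≠ a.h - 1 := by omega
            simp [cell, this]
          · simp only [Option.some.injEq] at h
            subst h
            have : z ≠ a.h + 1 := by omega
            simp [cell, this]
  · rw [hT] at h
    simp only [Option.some.injEq] at h
    subst h
    by_cases hz : z = a.h
    · have e1 : cell a z = (a.t z, some a.q) := by simp [cell, hz]
      rw [e1]
      simp only [upd, hz, hT]
      simp [cell]
    · rw [upd_cell_ne T a z hz]
      have h1 : arr T (cell a (z - 1)) .right = none := by
        by_cases h1 : z - 1 = a.h
        · rw [h1, arr_cell_eq, hT]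
        · exact arr_cell_ne T a _ _ h1
      have h2 : arr T (cell a (z + 1)) .left = none := by
        by_cases h2 : z + 1 = a.h
        · rw [h2, arr_cell_eq, hT]
        · exact arr_cell_ne T a _ _ h2
      rw [h1, h2]
      simp [cell, hz]

theorem upd_none (a : ACfg Γ Λ) (h : astep T a = none) :
    upd T (cell a (a.h - 1)) (cell a a.h) (cell a (a.h + 1)) = none := by
  unfold astep at h
  have e1 : cell a a.h = (a.t a.h, some a.q) := by simp [cell]
  rw [e1]
  rcases hT : T a.q (a.t a.h) with _ | ⟨q', D | x⟩
  · simp only [upd, hT]
  · rw [hT] at h
    cases D <;> simp at h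
  · rw [hT] at h
    simp at h

theorem aseq_bound (l : List Γ) (k : ℕ) (a : ACfg Γ Λ) (h : aseq T l k = some a) :
    -(k : ℤ) ≤ a.h ∧ a.h ≤ k ∧ ∀ z < -(k : ℤ), a.t z = default := by
  induction k generalizing a with
  | zero =>
    simp only [aseq, Option.some.injEq] at h
    subst h
    refine ⟨by simp [ainit], by simp [ainit], fun z hz => ?_⟩
    simp only [ainit]
    rw [if_neg (by simp at hz; omega)]
  | succ k ih =>
    simp only [aseq] at h
    obtain ⟨b, hb, hba⟩ := Option.bind_eq_some_iff.1 h
    obtain ⟨h1, h2, h3⟩ := ih b hb
    unfold astep at hba
    rcases hT : T b.q (b.t b.h) with _ | ⟨q', D | x⟩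
    · rw [hT] at hba
      simp at hba
    · rw [hT] at hba
      cases D <;> simp only [Option.some.injEq] at hba <;> subst hba <;>
        refine ⟨by push_cast; omega, by push_cast; omega, fun z hz => ?_⟩ <;>
        exact h3 z (by push_cast at hz; omega)
    · rw [hT] at hba
      simp only [Option.some.injEq] at hba
      subst hba
      refine ⟨by push_cast; omega, by push_cast; omega, fun z hz => ?_⟩
      simp only
      rw [Function.update_apply, if_neg (by push_cast at hz; omega)]
      exact h3 z (by push_cast at hz; omega)

/-- The states. -/
abbrev Sta (C : Type) (n : ℕ) := Fx C ⊕ Fin (n + 1)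

/-- the killing states -/
def kill {Γ Λ : Type} {n : ℕ} : Sta (Γ × Option Λ) n → Bool
  | .inl none => false
  | .inl (some (.inl b)) => b
  | .inl (some (.inr none)) => false
  | .inl (some (.inr (some (a, b, c)))) => a.2.isSome || b.2.isSome || c.2.isSome
  | .inr j => decide (j.val < n)

/-- the cells of the initial configuration -/
def W (l : List Γ) (j : ℕ) : Γ × Option Λ := (l.getI j, if j = 0 then some default else none)

/-- the transition function -/
def dd (n : ℕ) : Sta (Γ × Option Λ) n → Lt (Γ × Option Λ) → Sta (Γ × Option Λ) n
  | _, none => .inl none
  | .inl none, some _ => .inl none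
  | .inl (some (.inl _)), some none => .inl (some (.inl false))
  | .inl (some (.inl b)), some (some _) => .inl (some (.inl b))
  | .inl (some (.inr _)), some none =>
    .inl (some (.inr (some ((default, none), (default, none), (default, none)))))
  | .inl (some (.inr none)), some (some _) => .inl (some (.inr none))
  | .inl (some (.inr (some _))), some (some none) => .inl (some (.inr none))
  | .inl (some (.inr (some (a, b, c)))), some (some (some x)) =>
    if (upd T a b c).isSome then .inl (some (.inr (some (b, c, x)))) else .inl (some (.inr none))
  | .inr _, some none => .inr 0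
  | .inr j, some (some _) => .inr ⟨min (j.val + 1) n, by omega⟩

/-- the output function -/
def ll (l : List Γ) (n : ℕ) : Sta (Γ × Option Λ) n → Lt (Γ × Option Λ) → Lt (Γ × Option Λ)
  | s, none => if kill s then some (some none) else none
  | .inl none, some a => some a
  | .inl (some (.inl _)), some a => some a
  | .inl (some (.inr none)), some a => some a
  | .inl (some (.inr (some _))), some none => some none
  | .inl (some (.inr (some _))), some (some none) => some (some none)
  | .inl (some (.inr (some (a, b, c)))), some (some (some _)) => some (some (upd T a b c))
  | .inr _, some none => some none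
  | .inr j, some (some _) => some (some (some (W l j.val)))

/-- The automaton. -/
def mach (l : List Γ) : Mealy (Sta (Γ × Option Λ) l.length) (Lt (Γ × Option Λ)) where
  d := dd T l.length
  l := ll T l l.length

theorem killSpec (l : List Γ) :
    KillSpec (mach T l) (.inl none) none (some (some none)) (fun s => kill s = true) where
  d_r q := by
    rcases q with (_ | _ | _ | ⟨a, b, c⟩) | j <;> rfl
  d_idle a := by
    rcases a with _ | a <;> rfl
  l_idle a := by
    rcases a with _ | a <;> rfl
  ne := ⟨.inr 0, by simp⟩
  d_ne q a hq ha := by
    rcases q with (_ | _ | _ | ⟨x, y, z⟩) | j <;> rcases a with _ | _ | _ | a <;>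
      simp_all [mach, dd]
    split_ifs <;> simp
  l_ne q a ha := by
    rcases q with (_ | _ | _ | ⟨x, y, z⟩) | j <;> rcases a with _ | _ | _ | a <;>
      simp_all [mach, ll]
  l_kill q hq := by
    rcases q with (_ | _ | _ | ⟨x, y, z⟩) | j <;> simp_all [mach, ll]
  l_nkill q hq := by
    rcases q with (_ | _ | _ | ⟨x, y, z⟩) | j <;> simp_all [mach, ll]
  e_ne := by simp
  k_idle := by simp [kill]

end

end Pool.Agent.Q221.WeakReset
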