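import Mathlib

set_option autoImplicit false

namespace Pool.Agent.Q221.WeakReset

/-- A Mealy automaton with state set `Q` and alphabet `A`: the transition function `d` and the
output function `l`. -/
structure Mealy (Q A : Type) where
  d : Q → A → Q
  l : Q → A → A

namespace Mealy

variable {Q A : Type} (M : Mealy Q A)

/-- the state `q · u` reached from `q` after reading `u` -/
def run : Q → List A → Q
  | q, [] => q
  | q, a :: u => run (M.d q a) u

/-- the map `A_q` on words computed from the state `q` -/
def out : Q → List A → List A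
  | _, [] => []
  | q, a :: u => M.l q a :: out (M.d q a) u

/-- the set of reset words -/
def Syn : Set (List A) := {u | ∃ p, Set.range (fun q => M.run q u) = {p}}

/-- `H` is closed under adding letters on both sides, `A* H A* ⊆ H`. -/
def IsIdeal (H : Set (List A)) : Prop := ∀ u ∈ H, ∀ x y : List A, x ++ u ++ y ∈ H

/-- The automaton is synchronizing, and some non-empty two-sided ideal consisting of reset words is
mapped to itself by all `A_q`. -/
def WeaklyReset : Prop :=
  M.Syn.Nonempty ∧ ∃ H : Set (List A), H.Nonempty ∧ IsIdeal H ∧ H ⊆ M.Syn ∧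
    ∀ q, ∀ u ∈ H, M.out q u ∈ H

/-! ### General facts -/

theorem run_append (q : Q) (u v : List A) : M.run q (u ++ v) = M.run (M.run q u) v := by
  induction u generalizing q with
  | nil => rfl
  | cons a u ih => exact ih _

theorem out_append (q : Q) (u v : List A) :
    M.out q (u ++ v) = M.out q u ++ M.out (M.run q u) v := by
  induction u generalizing q with
  | nil => rfl
  | cons a u ih =>
    simp only [List.cons_append, out, run, ih]

theorem length_out (q : Q) (u : List A) : (M.out q u).length = u.length := by
  induction u generalizing q with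
  | nil => rfl
  | cons a u ih => simp [out, ih]

/-- the composition of the maps of a list of states (the first one is applied first) -/
def act : List Q → List A → List A
  | [], u => u
  | q :: qs, u => act qs (M.out q u)

/-- the list of states reached -/
def sec : List Q → List A → List Q
  | [], _ => []
  | q :: qs, x => M.run q x :: sec qs (M.out q x)

theorem act_append (qs : List Q) (x u : List A) :
    M.act qs (x ++ u) = M.act qs x ++ M.act (M.sec qs x) u := by
  induction qs generalizing x u with
  | nil => rfl
  | cons q qs ih => simp only [act, sec, out_append, ih]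

theorem act_append_left (ps qs : List Q) (u : List A) :
    M.act (ps ++ qs) u = M.act qs (M.act ps u) := by
  induction ps generalizing u with
  | nil => rfl
  | cons p ps ih => exact ih _

theorem mem_syn [Nonempty Q] (u : List A) : u ∈ M.Syn ↔ ∃ p, ∀ q, M.run q u = p := by
  constructor
  · rintro ⟨p, hp⟩
    refine ⟨p, fun q => ?_⟩
    have : M.run q u ∈ Set.range (fun q => M.run q u) := ⟨q, rfl⟩
    rw [hp] at this
    exact this
  · rintro ⟨p, hp⟩
    refine ⟨p, ?_⟩
    ext x
    constructor
    · rintro ⟨q, rfl⟩
      exact hp q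
    · intro hx
      obtain ⟨q⟩ := ‹Nonempty Q›
      exact ⟨q, (hp q).trans hx.symm⟩

theorem isIdeal_syn [Nonempty Q] : IsIdeal M.Syn := by
  intro u hu x y
  rw [mem_syn] at hu ⊢
  obtain ⟨p, hp⟩ := hu
  refine ⟨M.run p y, fun q => ?_⟩
  rw [run_append, run_append, hp]

theorem weaklyReset_iff [Nonempty Q] : M.WeaklyReset ↔ ∃ u, ∀ qs, M.act qs u ∈ M.Syn := by
  constructor
  · rintro ⟨-, H, ⟨u, hu⟩, -, h2, h3⟩
    refine ⟨u, fun qs => h2 ?_⟩
    induction qs generalizing u with
    | nil => exact hu
    | cons q qs ih => exact ih _ (h3 q u hu)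
  · rintro ⟨u, hu⟩
    refine ⟨⟨u, hu []⟩, {u | ∀ qs, M.act qs u ∈ M.Syn}, ⟨u, hu⟩, ?_, fun v hv => hv [],
      fun q v hv qs => hv (q :: qs)⟩
    intro v hv x y qs
    rw [act_append, act_append]
    exact M.isIdeal_syn _ (hv _) _ _

section transport

variable {Q' A' : Type} (M' : Mealy Q' A') (e : Q ≃ Q') (g : A ≃ A')
  (hd : ∀ q a, M'.d (e q) (g a) = e (M.d q a)) (hl : ∀ q a, M'.l (e q) (g a) = g (M.l q a))

include hd hl

theorem run_map (q : Q) (u : List A) : M'.run (e q) (u.map g) = e (M.run q u) := by
  induction u generalizing q with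
  | nil => rfl
  | cons a u ih => simp only [List.map_cons, run, hd, ih]

theorem out_map (q : Q) (u : List A) : M'.out (e q) (u.map g) = (M.out q u).map g := by
  induction u generalizing q with
  | nil => rfl
  | cons a u ih => simp only [List.map_cons, out, hd, hl, ih]

theorem act_map (qs : List Q) (u : List A) : M'.act (qs.map e) (u.map g) = (M.act qs u).map g := by
  induction qs generalizing u with
  | nil => rfl
  | cons q qs ih =>
    simp only [List.map_cons, act]
    rw [out_map M M' e g hd hl, ih]

theorem syn_map [Nonempty Q] (u : List A) : u.map g ∈ M'.Syn ↔ u ∈ M.Syn := by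
  have : Nonempty Q' := ⟨e (Classical.arbitrary Q)⟩
  rw [mem_syn, mem_syn]
  constructor
  · rintro ⟨p, hp⟩
    refine ⟨e.symm p, fun q => ?_⟩
    rw [← hp (e q), run_map M M' e g hd hl, e.symm_apply_apply]
  · rintro ⟨p, hp⟩
    refine ⟨e p, fun q => ?_⟩
    obtain ⟨q, rfl⟩ := e.surjective q
    rw [run_map M M' e g hd hl, hp]

theorem weaklyReset_map [Nonempty Q] : M'.WeaklyReset ↔ M.WeaklyReset := by
  have : Nonempty Q' := ⟨e (Classical.arbitrary Q)⟩
  rw [weaklyReset_iff, weaklyReset_iff]
  constructor
  · rintro ⟨u, hu⟩
    obtain ⟨v, rfl⟩ := List.map_surjective_iff.2 g.surjective u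
    refine ⟨v, fun qs => ?_⟩
    have := hu (qs.map e)
    rw [act_map M M' e g hd hl, syn_map M M' e g hd hl] at this
    exact this
  · rintro ⟨u, hu⟩
    refine ⟨u.map g, fun qs => ?_⟩
    obtain ⟨ps, rfl⟩ := List.map_surjective_iff.2 e.surjective qs
    rw [act_map M M' e g hd hl, syn_map M M' e g hd hl]
    exact hu ps

end transport

end Mealy

end Pool.Agent.Q221.WeakReset
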