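import Pool.Agent.Q221.WeakReset.Def

set_option autoImplicit false

namespace Pool.Agent.Q221.WeakReset

/-! Automata with a resetting letter `r`, which is destroyed exactly in the killing states. -/

structure KillSpec {Q A : Type} (M : Mealy Q A) (idle : Q) (r e : A) (K : Q → Prop) : Prop where
  d_r : ∀ q, M.d q r = idle
  d_idle : ∀ a, M.d idle a = idle
  l_idle : ∀ a, M.l idle a = a
  ne : ∃ q, q ≠ idle
  d_ne : ∀ q a, q ≠ idle → a ≠ r → M.d q a ≠ idle
  l_ne : ∀ q a, a ≠ r → M.l q a ≠ r
  l_kill : ∀ q, K q → M.l q r = e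
  l_nkill : ∀ q, ¬ K q → M.l q r = r
  e_ne : e ≠ r
  k_idle : ¬ K idle

namespace KillSpec

open Mealy

variable {Q A : Type} {M : Mealy Q A} {idle : Q} {r e : A} {K : Q → Prop}
  (h : KillSpec M idle r e K)

include h

theorem run_idle (u : List A) : M.run idle u = idle := by
  induction u with
  | nil => rfl
  | cons a u ih => simp only [run, h.d_idle, ih]

theorem out_idle (u : List A) : M.out idle u = u := by
  induction u with
  | nil => rfl
  | cons a u ih => simp only [out, h.d_idle, h.l_idle, ih]

theorem run_ne (q : Q) (hq : q ≠ idle) (u : List A) (hu : r ∉ u) : M.run q u ≠ idle := by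
  induction u generalizing q with
  | nil => exact hq
  | cons a u ih =>
    simp only [List.mem_cons, not_or] at hu
    exact ih _ (h.d_ne q a hq (Ne.symm hu.1)) hu.2

theorem out_ne (q : Q) (u : List A) (hu : r ∉ u) : r ∉ M.out q u := by
  induction u generalizing q with
  | nil => exact hu
  | cons a u ih =>
    simp only [List.mem_cons, not_or] at hu
    simp only [out, List.mem_cons, not_or]
    exact ⟨(h.l_ne q a (Ne.symm hu.1)).symm, ih _ hu.2⟩

theorem act_ne (qs : List Q) (u : List A) (hu : r ∉ u) : r ∉ M.act qs u := by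
  induction qs generalizing u with
  | nil => exact hu
  | cons q qs ih => exact ih _ (h.out_ne q u hu)

theorem mem_syn (u : List A) : u ∈ M.Syn ↔ r ∈ u := by
  have : Nonempty Q := ⟨idle⟩
  rw [Mealy.mem_syn]
  constructor
  · rintro ⟨p, hp⟩
    by_contra hu
    obtain ⟨q, hq⟩ := h.ne
    have h1 := h.run_ne q hq u hu
    rw [hp q, ← hp idle, h.run_idle] at h1
    exact h1 rfl
  · intro hu
    refine ⟨idle, fun q => ?_⟩
    obtain ⟨x, y, rfl⟩ := List.append_of_mem hu
    rw [run_append]
    simp only [run, h.d_r]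
    exact h.run_idle y

theorem out_r (q : Q) (v y : List A) : M.out q (v ++ r :: y) =
    M.out q v ++ M.l (M.run q v) r :: y := by
  rw [out_append]
  simp only [out, h.d_r, h.out_idle]

theorem act_r (qs : List Q) (v y : List A)
    (hk : ∀ ps q rs, qs = ps ++ q :: rs → ¬ K (M.run q (M.act ps v))) :
    M.act qs (v ++ r :: y) = M.act qs v ++ r :: y := by
  induction qs generalizing v with
  | nil => rfl
  | cons q qs ih =>
    simp only [act]
    have h0 : ¬ K (M.run q v) := hk [] q qs rfl
    rw [h.out_r, h.l_nkill _ h0]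
    apply ih
    intro ps p rs hqs
    exact hk (q :: ps) p rs (by rw [hqs]; rfl)

/-- killing the first `r` -/
theorem kill_one (v : List A) (y : List A)
    (hk : ∃ qs q, K (M.run q (M.act qs v))) :
    ∃ qs v', M.act qs (v ++ r :: y) = v' ++ e :: y ∧ (r ∉ v → r ∉ v') := by
  classical
  have hex : ∃ n, ∃ qs q, qs.length = n ∧ K (M.run q (M.act qs v)) := by
    obtain ⟨qs, q, hq⟩ := hk
    exact ⟨_, qs, q, rfl, hq⟩
  obtain ⟨qs, q, hn, hK⟩ := Nat.find_spec hex
  have hmin := fun m (hm : m < Nat.find hex) => Nat.find_min hex hm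
  refine ⟨qs ++ [q], M.out q (M.act qs v), ?_, fun hv => h.out_ne _ _ (h.act_ne _ _ hv)⟩
  rw [act_append_left, h.act_r qs v y]
  · simp only [act]
    rw [h.out_r, h.l_kill _ hK]
  · intro ps p rs hqs hK'
    refine hmin ps.length ?_ ⟨ps, p, rfl, hK'⟩
    rw [← hn, hqs]
    simp only [List.length_append, List.length_cons]
    omega

theorem weaklyReset_iff : M.WeaklyReset ↔ ∃ v, r ∉ v ∧ ∀ qs q, ¬ K (M.run q (M.act qs v)) := by
  classical
  have : Nonempty Q := ⟨idle⟩
  rw [Mealy.weaklyReset_iff]
  constructor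
  · rintro ⟨u, hu⟩
    by_contra hcon
    push Not at hcon
    suffices H : ∀ n (u : List A), u.count r = n → ∃ qs, r ∉ M.act qs u by
      obtain ⟨qs, hqs⟩ := H _ u rfl
      exact hqs ((h.mem_syn _).1 (hu qs))
    intro n
    induction n with
    | zero => intro u hu; exact ⟨[], List.count_eq_zero.1 hu⟩
    | succ n ih =>
      intro u hu
      have hmem : r ∈ u := List.count_pos_iff.1 (by omega)
      obtain ⟨v, y, rfl, hv⟩ := List.eq_append_cons_of_mem hmem
      obtain ⟨qs, v', h1, h2⟩ := h.kill_one v y (hcon v hv)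
      have h3 : (v' ++ e :: y).count r = n := by
        rw [List.count_append, List.count_cons, List.count_eq_zero.2 hv] at hu
        rw [List.count_append, List.count_cons, List.count_eq_zero.2 (h2 hv)]
        have h4 := h.e_ne
        simp only [beq_iff_eq, if_neg h4, if_true] at hu ⊢
        omega
      obtain ⟨ps, hps⟩ := ih _ h3
      refine ⟨qs ++ ps, ?_⟩
      rw [act_append_left, h1]
      exact hps
  · rintro ⟨v, hv, hk⟩
    refine ⟨v ++ [r], fun qs => ?_⟩
    rw [h.act_r qs v [] (fun ps q rs _ => hk ps q), h.mem_syn]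
    simp

end KillSpec

end Pool.Agent.Q221.WeakReset
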