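import Pool.Agent.Q221.WeakReset.Kill

set_option autoImplicit false

namespace Pool.Agent.Q221.WeakReset

open Turing

/-! The automaton of a Turing machine. -/

section abs

variable {Γ Λ : Type} [Inhabited Γ] [Inhabited Λ] (T : TM0.Machine Γ Λ)

/-- A configuration with absolute coordinates. -/
structure ACfg (Γ Λ : Type) where
  h : ℤ
  q : Λ
  t : ℤ → Γ

open Classical in
/-- The step function. -/
noncomputable def astep (a : ACfg Γ Λ) : Option (ACfg Γ Λ) :=
  match T a.q (a.t a.h) with
  | none => none
  | some (q', .move .left) => some ⟨a.h - 1, q', a.t⟩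
  | some (q', .move .right) => some ⟨a.h + 1, q', a.t⟩
  | some (q', .write x) => some ⟨a.h, q', Function.update a.t a.h x⟩

/-- the initial configuration -/
def ainit (l : List Γ) : ACfg Γ Λ := ⟨0, default, fun z => if 0 ≤ z then l.getI z.toNat else default⟩

/-- the sequence of configurations -/
noncomputable def aseq (l : List Γ) : ℕ → Option (ACfg Γ Λ)
  | 0 => some (ainit l)
  | k + 1 => (aseq l k).bind (astep T)

/-- correspondence of configurations -/
def Rel (c : TM0.Cfg Γ Λ) (a : ACfg Γ Λ) : Prop :=
  c.q = a.q ∧ ∀ z, c.Tape.nth (z - a.h) = a.t z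

theorem rel_init (l : List Γ) : Rel (TM0.init l : TM0.Cfg Γ Λ) (ainit l) := by
  refine ⟨rfl, fun z => ?_⟩
  simp only [TM0.init, ainit, sub_zero]
  rcases z with n | n
  · simp only [Int.ofNat_eq_natCast]
    rw [if_pos (by omega), Int.toNat_natCast]
    unfold Tape.mk₁ Tape.mk₂
    rw [Tape.mk'_nth_nat, ListBlank.nth_mk]
  · rw [if_neg (by omega)]
    unfold Tape.mk₁ Tape.mk₂ Tape.mk'
    change (ListBlank.mk []).nth n = default
    rw [ListBlank.nth_mk]
    simp [List.getI]

theorem respects : StateTransition.Respects (TM0.step T) (astep T) Rel := by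
  intro c a hca
  obtain ⟨hq, ht⟩ := hca
  have h0 : c.Tape.head = a.t a.h := by
    have := ht a.h
    rwa [sub_self, Tape.nth_zero] at this
  obtain ⟨q, tape⟩ := c
  simp only at hq h0 ht
  subst hq
  have key : TM0.step T ⟨a.q, tape⟩ = (T a.q (a.t a.h)).map fun ⟨q', s⟩ =>
      ⟨q', match s with | .move d => tape.move d | .write x => tape.write x⟩ := by
    simp only [TM0.step]
    rw [h0]
    rfl
  rw [key]
  rcases hT : T a.q (a.t a.h) with _ | ⟨q', s⟩
  · simp only [Option.map_none]
    unfold astep
    rw [hT]
  · simp only [Option.map_some]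
    rcases s with d | x
    · rcases d with _ | _
      · refine ⟨⟨a.h - 1, q', a.t⟩, ⟨rfl, fun z => ?_⟩, Relation.TransGen.single ?_⟩
        · simp only
          rw [Tape.move_left_nth, ← ht z]
          congr 1
          ring
        · change _ ∈ astep T a
          unfold astep
          rw [hT]
          rfl
      · refine ⟨⟨a.h + 1, q', a.t⟩, ⟨rfl, fun z => ?_⟩, Relation.TransGen.single ?_⟩
        · simp only
          rw [Tape.move_right_nth, ← ht z]
          congr 1
          ring
        · change _ ∈ astep T a
          unfold astep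
          rw [hT]
          rfl
    · refine ⟨⟨a.h, q', Function.update a.t a.h x⟩, ⟨rfl, fun z => ?_⟩,
        Relation.TransGen.single ?_⟩
      · simp only
        rw [Tape.write_nth, Function.update_apply, ← ht z]
        by_cases hz : z = a.h
        · rw [if_pos hz, if_pos (by omega)]
        · rw [if_neg hz, if_neg (by omega)]
      · change _ ∈ astep T a
        unfold astep
        rw [hT]
        rfl

theorem halts_iff (l : List Γ) : (StateTransition.eval (TM0.step T) (TM0.init l)).Dom ↔
    ∃ k a, aseq T l k = some a ∧ astep T a = none := by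
  rw [← StateTransition.tr_eval_dom (respects T) (rel_init l)]
  constructor
  · intro hd
    have hm := StateTransition.mem_eval.1 (Part.get_mem hd)
    obtain ⟨h1, h2⟩ := hm
    suffices H : ∀ a b, StateTransition.Reaches (astep T) a b → (∃ k, aseq T l k = some a) →
        ∃ k, aseq T l k = some b by
      obtain ⟨k, hk⟩ := H _ _ h1 ⟨0, rfl⟩
      exact ⟨k, _, hk, h2⟩
    intro a b hab
    induction hab with
    | refl => exact id
    | tail _ hbc ih =>
      intro ha
      obtain ⟨k, hk⟩ := ih ha
      refine ⟨k + 1, ?_⟩
      simp only [aseq, hk, Option.bind_some]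
      exact hbc
  · rintro ⟨k, a, hk, ha⟩
    suffices H : ∀ k a, aseq T l k = some a → StateTransition.Reaches (astep T) (ainit l) a by
      exact (StateTransition.mem_eval.2 ⟨H k a hk, ha⟩).1
    intro k
    induction k with
    | zero =>
      intro a ha
      simp only [aseq, Option.some.injEq] at ha
      rw [ha]
      exact Relation.ReflTransGen.refl
    | succ k ih =>
      intro a ha
      simp only [aseq] at ha
      obtain ⟨b, hb, hba⟩ := Option.bind_eq_some_iff.1 ha
      exact (ih b hb).tail hba

end abs

end Pool.Agent.Q221.WeakReset
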