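import Pool.Agent.Q221.WeakReset.Sim

set_option autoImplicit false
set_option linter.unusedSectionVars false

namespace Pool.Agent.Q221.WeakReset

open Turing Mealy

section

variable {Γ Λ : Type} [Inhabited Γ] [Inhabited Λ] (T : TM0.Machine Γ Λ)

/-- the shifted configuration -/
def sh (a : ACfg Γ Λ) (k : ℕ) (i : ℤ) : Γ × Option Λ := cell a (i - 2 * k)

theorem sh_neg {l : List Γ} {k : ℕ} {a : ACfg Γ Λ} (h : aseq T l k = some a) (i : ℤ) (hi : i < 0) :
    sh a k i = (default, none) := by
  obtain ⟨h1, h2, h3⟩ := aseq_bound T l k a h
  unfold sh cell
  rw [h3 _ (by omega), if_neg (by omega)]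

theorem sh_upd {k : ℕ} {a a' : ACfg Γ Λ} (h : astep T a = some a') (j : ℤ) :
    upd T (sh a k (j - 3)) (sh a k (j - 2)) (sh a k (j - 1)) = some (sh a' (k + 1) j) := by
  have := upd_cell T a a' h (j - 2 * ((k + 1 : ℕ) : ℤ))
  unfold sh
  rw [← this]
  push_cast
  congr 2 <;> ring

theorem sh_halt {k : ℕ} {a : ACfg Γ Λ} (h : astep T a = none) :
    upd T (sh a k (a.h + 2 * k + 2 - 3)) (sh a k (a.h + 2 * k + 2 - 2))
      (sh a k (a.h + 2 * k + 2 - 1)) = none := by
  have := upd_none T a h
  unfold sh
  rw [← this]
  congr 2 <;> ring

theorem sh_kill (n : ℕ) (a : ACfg Γ Λ) (k : ℕ) (N : ℤ) :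
    kill (stp (n := n) (sh a k (N - 3)) (sh a k (N - 2)) (sh a k (N - 1))) = true ↔
      (N - 3 ≤ a.h + 2 * k ∧ a.h + 2 * k < N) := by
  have key : ∀ i : ℤ, (sh a k i).2.isSome = true ↔ i = a.h + 2 * k := by
    intro i
    unfold sh cell
    simp only
    by_cases hi : i = a.h + 2 * k
    · rw [if_pos (by omega)]
      simp [hi]
    · rw [if_neg (by omega)]
      simp [hi]
  simp only [kill, Bool.or_eq_true, key]
  omega

/-- the start of the step mode -/
theorem run_stp (l : List Γ) {k : ℕ} {a a' : ACfg Γ Λ} (h : aseq T l k = some a)
    (h' : astep T a = some a') (N : ℕ) :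
    (mach T l).run (stp (default, none) (default, none) (default, none)) (seg (sh a k) 0 N) =
      stp (sh a k (N - 3)) (sh a k (N - 2)) (sh a k (N - 1)) ∧
    (mach T l).out (stp (default, none) (default, none) (default, none)) (seg (sh a k) 0 N) =
      seg (sh a' (k + 1)) 0 N := by
  have h1 := seg_run T l (sh a k) (sh a' (k + 1)) N 0 (fun j _ _ => sh_upd T h' j)
  rw [sh_neg T h (0 - 3) (by norm_num), sh_neg T h (0 - 2) (by norm_num),
    sh_neg T h (0 - 1) (by norm_num)] at h1
  simpa using h1

theorem run_stp_halt (l : List Γ) {k : ℕ} {a : ACfg Γ Λ} (h : aseq T l k = some a)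
    (h' : astep T a = none) (N : ℕ) (hN : 3 * k + 2 < N) :
    (mach T l).run (stp (default, none) (default, none) (default, none)) (seg (sh a k) 0 N) =
      dead ∧
    some (some none) ∈
      (mach T l).out (stp (default, none) (default, none) (default, none)) (seg (sh a k) 0 N) := by
  obtain ⟨b1, b2, b3⟩ := aseq_bound T l k a h
  have h1 := seg_halt T l (sh a k) N 0 ⟨a.h + 2 * k + 2, by omega, by omega, sh_halt T h'⟩
  rw [sh_neg T h (0 - 3) (by norm_num), sh_neg T h (0 - 2) (by norm_num),
    sh_neg T h (0 - 1) (by norm_num)] at h1
  exact h1

theorem sh_init (l : List Γ) (N : ℕ) :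
    seg (cell (ainit l : ACfg Γ Λ)) 0 N = seg (sh (ainit l) 0) 0 N := by
  apply seg_congr
  intro j _
  simp [sh]

/-- the restarting letter is never changed -/
theorem l_L (l : List Γ) (q : Sta (Γ × Option Λ) l.length) :
    (mach T l).l q (some none) = some none := by
  rcases q with (_ | _ | _ | ⟨x, y, z⟩) | j <;> rfl

theorem inr_run (l : List Γ) (v : List (Lt (Γ × Option Λ))) (hv : none ∉ v)
    (j : Fin (l.length + 1)) : ∃ j', (mach T l).run (.inr j) v = .inr j' := by
  induction v generalizing j with
  | nil => exact ⟨j, rfl⟩
  | cons a v ih =>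
    simp only [List.mem_cons, not_or] at hv
    rcases a with _ | _ | a
    · exact absurd rfl hv.1
    · exact ih hv.2 _
    · exact ih hv.2 _

theorem step_run (l : List Γ) (v : List (Lt (Γ × Option Λ))) (hv : none ∉ v)
    (o : Option ((Γ × Option Λ) × (Γ × Option Λ) × (Γ × Option Λ))) :
    ∃ o', (mach T l).run (.inl (some (.inr o))) v = .inl (some (.inr o')) := by
  induction v generalizing o with
  | nil => exact ⟨o, rfl⟩
  | cons a v ih =>
    simp only [List.mem_cons, not_or] at hv
    rcases a with _ | _ | a
    · exact absurd rfl hv.1
    · exact ih hv.2 _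
    · rcases o with _ | ⟨x, y, z⟩
      · exact ih hv.2 _
      · rcases a with _ | a
        · exact ih hv.2 _
        · simp only [run]
          change ∃ o', (mach T l).run (if (upd T x y z).isSome then
            (.inl (some (.inr (some (y, z, a)))) : Sta (Γ × Option Λ) l.length)
            else .inl (some (.inr none))) v = _
          split_ifs
          · exact ih hv.2 _
          · exact ih hv.2 _

theorem last_append {α : Type} (a : α) (v : List α) (h : a ∈ v) :
    ∃ v1 s, v = v1 ++ a :: s ∧ a ∉ s := by
  obtain ⟨x, y, h1, h2⟩ := List.eq_append_cons_of_mem (List.mem_reverse.2 h)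
  refine ⟨y.reverse, x.reverse, ?_, by simpa using h2⟩
  have := congrArg List.reverse h1
  simpa using this

theorem good_of (s : List (Lt (Γ × Option Λ))) (h1 : none ∉ s) (h2 : some none ∉ s) : Good s := by
  intro a ha
  rcases a with _ | _ | o
  · exact absurd ha h1
  · exact absurd ha h2
  · exact ⟨o, rfl⟩

/-- If the machine does not halt, every word can be killed. -/
theorem killable (l : List Γ) (hl : l ≠ []) (hn : ∀ k a, aseq T l k = some a → astep T a ≠ none)
    (v : List (Lt (Γ × Option Λ))) (hv : none ∉ v)
    (hk : ∀ qs q, ¬ (kill ((mach T l).run q ((mach T l).act qs v)) = true)) : False := by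
  have hS := killSpec T l
  by_cases hL : some none ∈ v
  swap
  · have hg := good_of v hv hL
    have : ∀ s : List (Lt (Γ × Option Λ)), Good s →
        (mach T l).run (.inl (some (.inl true))) s = .inl (some (.inl true)) := by
      intro s hs
      induction s with
      | nil => rfl
      | cons a s ih =>
        obtain ⟨o, rfl⟩ := hs a List.mem_cons_self
        exact ih hs.tail
    apply hk [] (.inl (some (.inl true)))
    simp only [act]
    rw [this v hg]
    rfl
  · obtain ⟨v1, s, rfl, hs⟩ := last_append _ _ hL
    simp only [List.mem_append, List.mem_cons, not_or] at hv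
    have hg := good_of s hv.2.2 hs
    have hex : ∀ k, ∃ a, aseq T l k = some a := by
      intro k
      induction k with
      | zero => exact ⟨_, rfl⟩
      | succ k ih =>
        obtain ⟨a, ha⟩ := ih
        rcases h : astep T a with _ | b
        · exact absurd h (hn k a ha)
        · exact ⟨b, by simp only [aseq, ha, Option.bind_some, h]⟩
    have key : ∀ k, ∃ qs v' a, none ∉ v' ∧ aseq T l k = some a ∧
        (mach T l).act qs (v1 ++ some none :: s) = v' ++ some none :: seg (sh a k) 0 s.length ∧
        a.h + 2 * k < s.length := by
      intro k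
      induction k with
      | zero =>
        obtain ⟨j', hj'⟩ := inr_run T l v1 hv.1 0
        have h1 := init_run T l hl s hg 0
        have e0 : (.inr ⟨min 0 l.length, by omega⟩ : Sta (Γ × Option Λ) l.length) = .inr 0 := by
          congr 1
        rw [e0] at h1
        refine ⟨[.inr 0], (mach T l).out (.inr 0) v1, ainit l, ?_, rfl, ?_, ?_⟩
        · exact hS.out_ne _ _ hv.1
        · simp only [act]
          rw [out_append, hj']
          simp only [out]
          congr 1
          refine congrArg₂ List.cons (l_L T l _) ?_
          change (mach T l).out (.inr 0) s = _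
          rw [h1.2, ← sh_init]
          rfl
        · have h2 := hk [] (.inr 0)
          simp only [act] at h2
          rw [run_append, hj'] at h2
          simp only [run] at h2
          change ¬ (kill ((mach T l).run (.inr 0) s) = true) at h2
          rw [h1.1] at h2
          simp only [kill, decide_eq_true_eq] at h2
          have hl' : 0 < l.length := List.length_pos_iff.2 hl
          simp only [ainit]
          push_cast
          omega
      | succ k ih =>
        obtain ⟨qs, v', a, hv', ha, hact, hlt⟩ := ih
        obtain ⟨a', ha'⟩ : ∃ a', astep T a = some a' := by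
          rcases h : astep T a with _ | b
          · exact absurd h (hn k a ha)
          · exact ⟨b, rfl⟩
        have ha2 : aseq T l (k + 1) = some a' := by
          simp only [aseq, ha, Option.bind_some, ha']
        obtain ⟨o', ho'⟩ := step_run T l v' hv' none
        have h1 := run_stp T l ha ha' s.length
        refine ⟨qs ++ [dead], (mach T l).out dead v', a', hS.out_ne _ _ hv', ha2, ?_, ?_⟩
        · rw [act_append_left, hact]
          simp only [act]
          rw [out_append, ho']
          simp only [out]
          congr 1
          exact congrArg₂ List.cons (l_L T l _) h1.2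
        · have h2 := hk qs dead
          rw [hact, run_append, ho'] at h2
          simp only [run] at h2
          change ¬ (kill ((mach T l).run (stp (default, none) (default, none) (default, none))
            (seg (sh a k) 0 s.length)) = true) at h2
          rw [h1.1, sh_kill] at h2
          have h3 : a'.h ≤ a.h + 1 := by
            unfold astep at ha'
            rcases hT : T a.q (a.t a.h) with _ | ⟨q', D | x⟩
            · rw [hT] at ha'
              simp at ha'
            · rw [hT] at ha'
              cases D <;> simp only [Option.some.injEq] at ha' <;> subst ha' <;> simp only <;> omega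
            · rw [hT] at ha'
              simp only [Option.some.injEq] at ha'
              subst ha'
              simp
          push_cast
          omega
    obtain ⟨qs, v', a, -, ha, -, hlt⟩ := key s.length
    obtain ⟨b1, b2, b3⟩ := aseq_bound T l _ a ha
    omega

/-- If the machine halts, there is a word which cannot be killed. -/
theorem unkillable (l : List Γ) (hl : l ≠ []) (K : ℕ) (aK : ACfg Γ Λ) (hK : aseq T l K = some aK)
    (hh : astep T aK = none) :
    ∃ v : List (Lt (Γ × Option Λ)), none ∉ v ∧
      ∀ qs q, ¬ (kill ((mach T l).run q ((mach T l).act qs v)) = true) := by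
  set N := l.length + 3 * K + 4 with hN
  let P : List (Lt (Γ × Option Λ)) → Prop := fun v => ∃ s, v = some none :: s ∧ Good s ∧
    s.length = N ∧ (some (some none) ∈ s ∨ ∃ k a, k ≤ K ∧ aseq T l k = some a ∧
      s = seg (sh a k) 0 N)
  have hP : ∀ v, P v → ∀ q, P ((mach T l).out q v) ∧
      ¬ (kill ((mach T l).run q v) = true) := by
    rintro v ⟨s, rfl, hg, hlen, hs⟩ q
    have hout : (mach T l).out q (some none :: s) =
        some none :: (mach T l).out ((mach T l).d q (some none)) s := by
      simp only [out, l_L T l q]
    have hrun : (mach T l).run q (some none :: s) =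
        (mach T l).run ((mach T l).d q (some none)) s := rfl
    rw [hout, hrun]
    have hgo := good_out T l ((mach T l).d q (some none)) s hg
    have hlo : ((mach T l).out ((mach T l).d q (some none)) s).length = N := by
      rw [length_out, hlen]
    rcases q with (_ | b | o) | j
    · have h1 := (killSpec T l).out_idle s
      have h2 := (killSpec T l).run_idle s
      change P (some none :: (mach T l).out (.inl none) s) ∧
        ¬ (kill ((mach T l).run (.inl none) s) = true)
      rw [h1, h2]
      exact ⟨⟨s, rfl, hg, hlen, hs⟩, by simp [kill]⟩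
    · have h1 : ∀ s : List (Lt (Γ × Option Λ)), Good s →
          (mach T l).out (.inl (some (.inl false))) s = s ∧
          (mach T l).run (.inl (some (.inl false))) s = .inl (some (.inl false)) := by
        intro s hs
        induction s with
        | nil => exact ⟨rfl, rfl⟩
        | cons a s ih =>
          obtain ⟨o, rfl⟩ := hs a List.mem_cons_self
          obtain ⟨i1, i2⟩ := ih hs.tail
          refine ⟨?_, i2⟩
          change some (some o) :: (mach T l).out (.inl (some (.inl false))) s = _
          rw [i1]
      change P (some none :: (mach T l).out (.inl (some (.inl false))) s) ∧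
        ¬ (kill ((mach T l).run (.inl (some (.inl false))) s) = true)
      rw [(h1 s hg).1, (h1 s hg).2]
      exact ⟨⟨s, rfl, hg, hlen, hs⟩, by simp [kill]⟩
    · have e1 : (mach T l).d (.inl (some (.inr o))) (some none) =
          stp (default, none) (default, none) (default, none) := by
        rcases o with _ | ⟨x, y, z⟩ <;> rfl
      rw [e1] at hgo hlo ⊢
      rcases hs with hs | ⟨k, a, hk, ha, rfl⟩
      · obtain ⟨h1, h2⟩ := H_run T l s hg hs (default, none) (default, none) (default, none)
        refine ⟨⟨_, rfl, hgo, hlo, Or.inl h2⟩, ?_⟩
        rw [h1]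
        simp [kill]
      · rcases hst : astep T a with _ | a'
        · obtain ⟨h1, h2⟩ := run_stp_halt T l ha hst N (by omega)
          refine ⟨⟨_, rfl, hgo, hlo, Or.inl h2⟩, ?_⟩
          rw [h1]
          simp [kill]
        · obtain ⟨h1, h2⟩ := run_stp T l ha hst N
          have hkK : k < K := by
            rcases Nat.lt_or_ge k K with h | h
            · exact h
            · exfalso
              have : k = K := le_antisymm hk h
              subst this
              rw [hK] at ha
              simp only [Option.some.injEq] at ha
              subst ha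
              rw [hh] at hst
              simp at hst
          refine ⟨⟨_, rfl, hgo, hlo, Or.inr ⟨k + 1, a', hkK, ?_, h2⟩⟩, ?_⟩
          · simp only [aseq, ha, Option.bind_some, hst]
          · rw [h1, sh_kill]
            obtain ⟨b1, b2, b3⟩ := aseq_bound T l k a ha
            omega
    · have e1 : (mach T l).d (.inr j) (some none) = .inr 0 := rfl
      rw [e1] at hgo hlo ⊢
      have h1 := init_run T l hl s hg 0
      have e0 : (.inr ⟨min 0 l.length, by omega⟩ : Sta (Γ × Option Λ) l.length) = .inr 0 := by
        congr 1
      rw [e0] at h1
      refine ⟨⟨_, rfl, hgo, hlo, Or.inr ⟨0, ainit l, by omega, rfl, ?_⟩⟩, ?_⟩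
      · rw [h1.2, ← sh_init, hlen]
        rfl
      · rw [h1.1]
        simp only [kill, decide_eq_true_eq]
        omega
  have hP0 : P (some none :: List.replicate N (some (some none))) := by
    refine ⟨_, rfl, ?_, by simp, Or.inl ?_⟩
    · intro a ha
      exact ⟨none, List.eq_of_mem_replicate ha⟩
    · rw [List.mem_replicate]
      exact ⟨by omega, rfl⟩
  refine ⟨some none :: List.replicate N (some (some none)), ?_, ?_⟩
  · simp [List.mem_replicate]
  · intro qs
    have : ∀ v, P v → P ((mach T l).act qs v) := by
      induction qs with
      | nil => exact fun v hv => hv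
      | cons q qs ih => exact fun v hv => ih _ (hP v hv q).1
    intro q
    exact (hP _ (this _ hP0) q).2

theorem mach_iff (l : List Γ) (hl : l ≠ []) : (mach T l).WeaklyReset ↔
    (StateTransition.eval (TM0.step T) (TM0.init l)).Dom := by
  rw [halts_iff, (killSpec T l).weaklyReset_iff]
  constructor
  · rintro ⟨v, hv, hk⟩
    by_contra hcon
    push Not at hcon
    exact killable T l hl hcon v hv hk
  · rintro ⟨K, a, hK, hh⟩
    exact unkillable T l hl K a hK hh

end

end Pool.Agent.Q221.WeakReset
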