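import Pool.Agent.Q221.WeakReset.Main
import Pool.Agent.Helper147.Univ

set_option autoImplicit false
set_option linter.unusedSectionVars false

namespace Pool.Agent.Q221.WeakReset

open Turing Mealy

/-- A code of a Mealy automaton: the number of states minus one, the number of letters minus one,
and the tables of the transition function and of the output function (row by row). -/
abbrev Code := ℕ × ℕ × List ℕ × List ℕ

/-- The automaton of a code (missing entries of the tables are read as `0`, entries are reduced
modulo the number of states or letters, so that every code describes an automaton). -/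
def aut (c : Code) : Mealy (Fin (c.1 + 1)) (Fin (c.2.1 + 1)) where
  d q a := Fin.ofNat (c.1 + 1) (c.2.2.1.getD (q.val * (c.2.1 + 1) + a.val) 0)
  l q a := Fin.ofNat (c.2.1 + 1) (c.2.2.2.getD (q.val * (c.2.1 + 1) + a.val) 0)

/-- the table of a function -/
def tab (n m : ℕ) (F : ℕ → ℕ → ℕ) : List ℕ :=
  (List.range ((n + 1) * (m + 1))).map fun i => F (i / (m + 1)) (i % (m + 1))

theorem tab_getD (n m : ℕ) (F : ℕ → ℕ → ℕ) (q a : ℕ) (hq : q ≤ n) (ha : a ≤ m) :
    (tab n m F).getD (q * (m + 1) + a) 0 = F q a := by
  have h1 : q * (m + 1) + a < (n + 1) * (m + 1) := by nlinarith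
  unfold tab
  rw [List.getD_eq_getElem?_getD, List.getElem?_map, List.getElem?_range h1]
  simp only [Option.map_some, Option.getD_some]
  have e1 : (q * (m + 1) + a) / (m + 1) = q := by
    rw [Nat.add_comm, Nat.add_mul_div_right _ _ (by omega), Nat.div_eq_of_lt (by omega), zero_add]
  have e2 : (q * (m + 1) + a) % (m + 1) = a := by
    rw [Nat.add_comm, Nat.add_mul_mod_self_right, Nat.mod_eq_of_lt (by omega)]
  rw [e1, e2]

/-- Every automaton has a code. -/
theorem exists_code (n m : ℕ) (M : Mealy (Fin (n + 1)) (Fin (m + 1))) :
    ∃ s t, aut (n, m, s, t) = M := by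
  refine ⟨tab n m fun q a => (M.d (Fin.ofNat _ q) (Fin.ofNat _ a)).val,
    tab n m fun q a => (M.l (Fin.ofNat _ q) (Fin.ofNat _ a)).val, ?_⟩
  obtain ⟨d, l⟩ := M
  unfold aut
  congr 1
  · funext q a
    simp only
    rw [tab_getD _ _ _ _ _ (by omega) (by omega)]
    simp
  · funext q a
    simp only
    rw [tab_getD _ _ _ _ _ (by omega) (by omega)]
    simp

section

variable {Γ Λ : Type} [Inhabited Γ] [Inhabited Λ] (T : TM0.Machine Γ Λ)

/-- the transitions of the fixed states -/
def dF (s : Fx (Γ × Option Λ)) (a : Lt (Γ × Option Λ)) : Fx (Γ × Option Λ) :=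
  match dd T 0 (.inl s) a with
  | .inl s' => s'
  | .inr _ => none

theorem dd_inl (n : ℕ) (s : Fx (Γ × Option Λ)) (a : Lt (Γ × Option Λ)) :
    dd T n (.inl s) a = .inl (dF T s a) := by
  rcases s with _ | _ | _ | ⟨x, y, z⟩ <;> rcases a with _ | _ | _ | a <;> try rfl
  unfold dF
  simp only [dd]
  by_cases h : (upd T x y z).isSome
  · rw [if_pos h, if_pos h]
  · rw [if_neg h, if_neg h]

theorem ll_inl (l : List Γ) (n : ℕ) (s : Fx (Γ × Option Λ)) (a : Lt (Γ × Option Λ)) :
    ll T l n (.inl s) a = ll T [] 0 (.inl s) a := by
  rcases s with _ | _ | _ | ⟨x, y, z⟩ <;> rcases a with _ | _ | _ | a <;> rfl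

variable {c0 m : ℕ} (eF : Fx (Γ × Option Λ) ≃ Fin (c0 + 1)) (g : Lt (Γ × Option Λ) ≃ Fin (m + 1))

/-- numbering of the states -/
def eS (n : ℕ) : Sta (Γ × Option Λ) n ≃ Fin (c0 + 1 + n + 1) :=
  (eF.sumCongr (Equiv.refl _)).trans finSumFinEquiv

theorem eS_inl (n : ℕ) (s : Fx (Γ × Option Λ)) : (eS eF n (.inl s)).val = (eF s).val := rfl

theorem eS_inr (n : ℕ) (j : Fin (n + 1)) : (eS eF n (.inr j)).val = c0 + 1 + j.val := rfl

/-- the transition table -/
def fd (V : List ℕ) (q a : ℕ) : ℕ :=
  if q < c0 + 1 then
    (tab c0 m fun q a => (eF (dF T (eF.symm (Fin.ofNat _ q)) (g.symm (Fin.ofNat _ a)))).val).getD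
      (q * (m + 1) + a) 0
  else if a = (g none).val then (eF none).val
  else if a = (g (some none)).val then c0 + 1
  else c0 + 1 + min (q - (c0 + 1) + 1) (V.length - 1)

/-- the output table -/
def fl (V : List ℕ) (q a : ℕ) : ℕ :=
  if q < c0 + 1 then
    (tab c0 m fun q a => (g (ll T [] 0 (.inl (eF.symm (Fin.ofNat _ q)))
      (g.symm (Fin.ofNat _ a)))).val).getD (q * (m + 1) + a) 0
  else if a = (g none).val then
    (if q - (c0 + 1) < V.length - 1 then (g (some (some none))).val else (g none).val)
  else if a = (g (some none)).val then (g (some none)).val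
  else V.getD (q - (c0 + 1)) 0

/-- the code of the automaton of the list `V` of letters -/
def red (V : List ℕ) : Code :=
  (c0 + 1 + (V.length - 1), m, tab (c0 + 1 + (V.length - 1)) m (fd T eF g V),
    tab (c0 + 1 + (V.length - 1)) m (fl T eF g V))

theorem fd_primrec : Primrec (fun p : List ℕ × ℕ × ℕ => fd T eF g p.1 p.2.1 p.2.2) := by
  have hV : Primrec (fun p : List ℕ × ℕ × ℕ => p.1.length - 1) :=
    Primrec.nat_sub.comp (Primrec.list_length.comp Primrec.fst) (Primrec.const 1)
  have hq : Primrec (fun p : List ℕ × ℕ × ℕ => p.2.1) := Primrec.fst.comp Primrec.snd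
  have ha : Primrec (fun p : List ℕ × ℕ × ℕ => p.2.2) := Primrec.snd.comp Primrec.snd
  unfold fd
  refine Primrec.ite (Primrec.nat_lt.comp hq (Primrec.const _)) ?_ ?_
  · exact (Primrec.list_getD 0).comp (Primrec.const _)
      (Primrec.nat_add.comp (Primrec.nat_mul.comp hq (Primrec.const _)) ha)
  · refine Primrec.ite (PrimrecRel.comp Primrec.eq ha (Primrec.const _)) (Primrec.const _) ?_
    refine Primrec.ite (PrimrecRel.comp Primrec.eq ha (Primrec.const _)) (Primrec.const _) ?_
    exact Primrec.nat_add.comp (Primrec.const _) (Primrec.nat_min.comp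
      (Primrec.nat_add.comp (Primrec.nat_sub.comp hq (Primrec.const _)) (Primrec.const _)) hV)

theorem fl_primrec : Primrec (fun p : List ℕ × ℕ × ℕ => fl T eF g p.1 p.2.1 p.2.2) := by
  have hV : Primrec (fun p : List ℕ × ℕ × ℕ => p.1.length - 1) :=
    Primrec.nat_sub.comp (Primrec.list_length.comp Primrec.fst) (Primrec.const 1)
  have hq : Primrec (fun p : List ℕ × ℕ × ℕ => p.2.1) := Primrec.fst.comp Primrec.snd
  have ha : Primrec (fun p : List ℕ × ℕ × ℕ => p.2.2) := Primrec.snd.comp Primrec.snd
  unfold fl
  refine Primrec.ite (Primrec.nat_lt.comp hq (Primrec.const _)) ?_ ?_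
  · exact (Primrec.list_getD 0).comp (Primrec.const _)
      (Primrec.nat_add.comp (Primrec.nat_mul.comp hq (Primrec.const _)) ha)
  · refine Primrec.ite (PrimrecRel.comp Primrec.eq ha (Primrec.const _)) ?_ ?_
    · exact Primrec.ite (Primrec.nat_lt.comp (Primrec.nat_sub.comp hq (Primrec.const _)) hV)
        (Primrec.const _) (Primrec.const _)
    · refine Primrec.ite (PrimrecRel.comp Primrec.eq ha (Primrec.const _)) (Primrec.const _) ?_
      exact (Primrec.list_getD 0).comp Primrec.fst (Primrec.nat_sub.comp hq (Primrec.const _))

theorem tab_primrec (F : List ℕ → ℕ → ℕ → ℕ) (N : List ℕ → ℕ) (hN : Primrec N)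
    (hF : Primrec (fun p : List ℕ × ℕ × ℕ => F p.1 p.2.1 p.2.2)) :
    Primrec (fun V => tab (N V) m (F V)) := by
  unfold tab
  refine Primrec.list_map (Primrec.list_range.comp (Primrec.nat_mul.comp
    (Primrec.nat_add.comp hN (Primrec.const _)) (Primrec.const _))) ?_
  have h1 : Primrec (fun p : List ℕ × ℕ => (p.1, p.2 / (m + 1), p.2 % (m + 1))) :=
    Primrec.fst.pair ((Primrec.nat_div.comp Primrec.snd (Primrec.const _)).pair
      (Primrec.nat_mod.comp Primrec.snd (Primrec.const _)))
  exact hF.comp h1

theorem red_primrec : Primrec (red T eF g) := by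
  have hV : Primrec (fun V : List ℕ => c0 + 1 + (V.length - 1)) :=
    Primrec.nat_add.comp (Primrec.const _)
      (Primrec.nat_sub.comp Primrec.list_length (Primrec.const 1))
  exact hV.pair ((Primrec.const m).pair ((tab_primrec _ _ hV (fd_primrec T eF g)).pair
    (tab_primrec _ _ hV (fl_primrec T eF g))))

theorem red_iff (l : List Γ) (V : List ℕ) (hV : V.length = l.length + 1)
    (hg : ∀ j ≤ l.length, V.getD j 0 = (g (some (some (some (W l j))))).val) :
    (aut (red T eF g V)).WeaklyReset ↔ (mach T l).WeaklyReset := by
  have : Nonempty (Sta (Γ × Option Λ) l.length) := ⟨.inl none⟩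
  have hlen : V.length - 1 = l.length := by omega
  have hc : (red T eF g V) = (c0 + 1 + l.length, m, tab (c0 + 1 + l.length) m (fd T eF g V),
    tab (c0 + 1 + l.length) m (fl T eF g V)) := by
    unfold red
    rw [hlen]
  rw [hc]
  refine weaklyReset_map (mach T l) (aut _) (eS eF l.length) g ?_ ?_
  · intro q a
    apply Fin.ext
    have h1 := (eS eF l.length q).isLt
    have h2 := (g a).isLt
    change ((tab (c0 + 1 + l.length) m (fd T eF g V)).getD
      ((eS eF l.length q).val * (m + 1) + (g a).val) 0) % _ = _
    rw [tab_getD _ _ _ _ _ (by omega) (by omega)]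
    have key : fd T eF g V (eS eF l.length q).val (g a).val =
        (eS eF l.length ((mach T l).d q a)).val := by
      rcases q with s | j
      · have h3 := (eF s).isLt
        rw [eS_inl]
        change _ = (eS eF l.length (dd T l.length (.inl s) a)).val
        rw [dd_inl, eS_inl]
        unfold fd
        rw [if_pos h3, tab_getD _ _ _ _ _ (by omega) (by omega)]
        simp
      · rw [eS_inr]
        unfold fd
        rw [if_neg (by omega)]
        rcases a with _ | _ | o
        · rw [if_pos rfl]
          rfl
        · rw [if_neg, if_pos rfl]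
          · change _ = c0 + 1 + 0
            rfl
          · intro h
            have := g.injective (Fin.ext h)
            simp at this
        · rw [if_neg, if_neg]
          · change _ = c0 + 1 + min (j.val + 1) l.length
            rw [hlen]
            congr 2
            omega
          · intro h
            have := g.injective (Fin.ext h)
            simp at this
          · intro h
            have := g.injective (Fin.ext h)
            simp at this
    rw [key]
    exact Nat.mod_eq_of_lt (eS eF l.length ((mach T l).d q a)).isLt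
  · intro q a
    apply Fin.ext
    have h1 := (eS eF l.length q).isLt
    have h2 := (g a).isLt
    change ((tab (c0 + 1 + l.length) m (fl T eF g V)).getD
      ((eS eF l.length q).val * (m + 1) + (g a).val) 0) % _ = _
    rw [tab_getD _ _ _ _ _ (by omega) (by omega)]
    have key : fl T eF g V (eS eF l.length q).val (g a).val = (g ((mach T l).l q a)).val := by
      rcases q with s | j
      · have h3 := (eF s).isLt
        rw [eS_inl]
        change _ = (g (ll T l l.length (.inl s) a)).val
        rw [ll_inl]
        unfold fl
        rw [if_pos h3, tab_getD _ _ _ _ _ (by omega) (by omega)]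
        simp
      · rw [eS_inr]
        unfold fl
        rw [if_neg (by omega)]
        have e1 : c0 + 1 + j.val - (c0 + 1) = j.val := by omega
        rw [e1]
        rcases a with _ | _ | o
        · rw [if_pos rfl, hlen]
          change _ = (g (if kill (.inr j) then some (some none) else none)).val
          simp only [kill, decide_eq_true_eq]
          by_cases hj : j.val < l.length
          · rw [if_pos hj, if_pos hj]
          · rw [if_neg hj, if_neg hj]
        · rw [if_neg, if_pos rfl]
          · rfl
          · intro h
            have := g.injective (Fin.ext h)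
            simp at this
        · rw [if_neg, if_neg]
          · rw [hg j.val (by omega)]
            rfl
          · intro h
            have := g.injective (Fin.ext h)
            simp at this
          · intro h
            have := g.injective (Fin.ext h)
            simp at this
    rw [key]
    exact Nat.mod_eq_of_lt (g ((mach T l).l q a)).isLt

end

open Turing.PartrecToTM2 (trNat) in
open Pool.Agent.Helper147.Univ in
/-- The weakly reset property is undecidable. -/
theorem undecidable : ¬ ComputablePred fun c : Code => (aut c).WeaklyReset := by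
  classical
  intro hcp
  apply u_not_computable
  obtain ⟨Λ, i1, i2, T, hT⟩ := exists_machine
  have fK : Finite PartrecToTM2.K' := by
    refine Finite.of_injective (fun k : PartrecToTM2.K' => match k with
      | .main => (0 : Fin 4) | .rev => 1 | .aux => 2 | .stack => 3) ?_
    intro a b h
    cases a <;> cases b <;> simp_all
  have fG : Finite (TM2to1.Γ' PartrecToTM2.K' (fun _ => PartrecToTM2.Γ')) :=
    inferInstanceAs (Finite (Bool × (PartrecToTM2.K' → Option PartrecToTM2.Γ')))
  let _ : Fintype (TM2to1.Γ' PartrecToTM2.K' (fun _ => PartrecToTM2.Γ')) := Fintype.ofFinite _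
  let _ : Fintype Λ := Fintype.ofFinite _
  let C := TM2to1.Γ' PartrecToTM2.K' (fun _ => PartrecToTM2.Γ') × Option Λ
  obtain ⟨c0, hc0⟩ : ∃ c0, Fintype.card (Fx C) = c0 + 1 :=
    ⟨Fintype.card (Fx C) - 1, by have := Fintype.card_pos (α := Fx C); omega⟩
  obtain ⟨m, hm⟩ : ∃ m, Fintype.card (Lt C) = m + 1 :=
    ⟨Fintype.card (Lt C) - 1, by have := Fintype.card_pos (α := Lt C); omega⟩
  let eF : Fx C ≃ Fin (c0 + 1) := Fintype.equivFinOfCardEq hc0
  let g : Lt C ≃ Fin (m + 1) := Fintype.equivFinOfCardEq hm
  let κ : PartrecToTM2.Γ' → ℕ := fun a => (g (some (some (some (sym false a, none))))).val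
  let V : ℕ → List ℕ := fun n =>
    (g (some (some (some (sym true .cons, some default))))).val ::
      (((trNat n).map κ).reverse ++ [(g (some (some (some (default, none))))).val])
  have hV : Computable V := by
    refine Computable.list_cons.comp (Computable.const _) ?_
    refine Computable.list_append.comp ?_ (Computable.const _)
    exact Primrec.list_reverse.to_comp.comp (digits_computable κ)
  let L : ℕ → List (TM2to1.Γ' PartrecToTM2.K' (fun _ => PartrecToTM2.Γ')) := fun n =>
    sym true .cons :: (trNat n).reverse.map (sym false)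
  have key : ∀ n, (aut (red T eF g (V n))).WeaklyReset ↔ (u n).Dom := by
    intro n
    rw [← hT n, ← mach_iff T (L n) (by simp [L])]
    apply red_iff
    · simp [V, L]
    · intro j hj
      rcases j with _ | j
      · rfl
      · have hj' : j ≤ (trNat n).length := by simpa [L] using hj
        simp only [V, List.getD_cons_succ, W]
        have e1 : (L n).getI (j + 1) = ((trNat n).reverse.map (sym false)).getI j := rfl
        rw [e1, if_neg (by omega), ← List.map_reverse]
        by_cases hj2 : j < (trNat n).length
        · rw [List.getD_append _ _ _ _ (by simpa using hj2)]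
          rw [List.getD_eq_getElem _ _ (by simpa using hj2),
            List.getI_eq_getElem _ (by simpa using hj2)]
          simp [κ]
        · have hj3 : j = (trNat n).length := by omega
          rw [List.getD_append_right _ _ _ _ (by simp; omega)]
          rw [List.getI_eq_default _ (by simp; omega)]
          simp [hj3]
  have hred : ManyOneReducible (fun n => (u n).Dom) (fun c : Code => (aut c).WeaklyReset) :=
    ⟨fun n => red T eF g (V n), (red_primrec T eF g).to_comp.comp hV, fun n => (key n).symm⟩
  exact ComputablePred.computable_of_manyOneReducible hred hcp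

end Pool.Agent.Q221.WeakReset
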