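import Pool.Agent.Q221.WeakReset.Auto

set_option autoImplicit false
set_option linter.unusedSectionVars false

namespace Pool.Agent.Q221.WeakReset

open Turing Mealy

section

variable {Γ Λ : Type} [Inhabited Γ] [Inhabited Λ] (T : TM0.Machine Γ Λ)

/-- words without resetting and restarting letters -/
def Good (s : List (Lt (Γ × Option Λ))) : Prop := ∀ a ∈ s, ∃ o, a = some (some o)

/-- a word of cells -/
def seg (X : ℤ → Γ × Option Λ) : ℤ → ℕ → List (Lt (Γ × Option Λ))
  | _, 0 => []
  | i, m + 1 => some (some (some (X i))) :: seg X (i + 1) m

theorem good_seg (X : ℤ → Γ × Option Λ) (i : ℤ) (m : ℕ) : Good (seg X i m) := by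
  induction m generalizing i with
  | zero => intro a ha; simp [seg] at ha
  | succ m ih =>
    intro a ha
    simp only [seg, List.mem_cons] at ha
    rcases ha with rfl | ha
    · exact ⟨_, rfl⟩
    · exact ih _ a ha

theorem length_seg (X : ℤ → Γ × Option Λ) (i : ℤ) (m : ℕ) : (seg X i m).length = m := by
  induction m generalizing i with
  | zero => rfl
  | succ m ih => simp [seg, ih]

theorem seg_congr (X Y : ℤ → Γ × Option Λ) (i : ℤ) (m : ℕ) (h : ∀ j, i ≤ j → X j = Y j) :
    seg X i m = seg Y i m := by
  induction m generalizing i with
  | zero => rfl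
  | succ m ih => simp only [seg, h i le_rfl, ih (i + 1) (fun j hj => h j (by omega))]

/-- the dead state -/
abbrev dead {n : ℕ} : Sta (Γ × Option Λ) n := .inl (some (.inr none))

/-- the states of the step mode -/
abbrev stp {n : ℕ} (a b c : Γ × Option Λ) : Sta (Γ × Option Λ) n :=
  .inl (some (.inr (some (a, b, c))))

theorem Good.tail {a : Lt (Γ × Option Λ)} {s : List (Lt (Γ × Option Λ))} (h : Good (a :: s)) :
    Good s := fun b hb => h b (List.mem_cons_of_mem _ hb)

theorem good_out (l : List Γ) (q : Sta (Γ × Option Λ) l.length) (s : List (Lt (Γ × Option Λ)))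
    (hs : Good s) : Good ((mach T l).out q s) := by
  induction s generalizing q with
  | nil => exact hs
  | cons a s ih =>
    obtain ⟨o, rfl⟩ := hs a List.mem_cons_self
    intro b hb
    simp only [out, List.mem_cons] at hb
    rcases hb with rfl | hb
    · rcases q with (_ | _ | _ | ⟨x, y, z⟩) | j <;> rcases o with _ | o <;> exact ⟨_, rfl⟩
    · exact ih _ hs.tail b hb

theorem dead_run (l : List Γ) (s : List (Lt (Γ × Option Λ))) (hs : Good s) :
    (mach T l).run dead s = dead ∧ (mach T l).out dead s = s := by
  induction s with
  | nil => exact ⟨rfl, rfl⟩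
  | cons a s ih =>
    obtain ⟨o, rfl⟩ := hs a List.mem_cons_self
    obtain ⟨h1, h2⟩ := ih hs.tail
    constructor
    · exact h1
    · change some (some o) :: (mach T l).out dead s = _
      rw [h2]

theorem H_run (l : List Γ) (s : List (Lt (Γ × Option Λ))) (hs : Good s)
    (hH : some (some none) ∈ s) (a b c : Γ × Option Λ) :
    (mach T l).run (stp a b c) s = dead ∧
      some (some none) ∈ (mach T l).out (stp a b c) s := by
  induction s generalizing a b c with
  | nil => simp at hH
  | cons x s ih =>
    obtain ⟨o, rfl⟩ := hs x List.mem_cons_self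
    rcases o with _ | o
    · refine ⟨(dead_run T l s hs.tail).1, ?_⟩
      exact List.mem_cons_self
    · simp only [List.mem_cons] at hH
      rcases hH with hH | hH
      · simp at hH
      · obtain ⟨h1, h2⟩ := ih hs.tail hH b c o
        simp only [run, out]
        rcases hu : upd T a b c with _ | y
        · have e1 : (mach T l).d (stp a b c) (some (some (some o))) = dead := by
            change (if (upd T a b c).isSome then _ else _) = _
            rw [hu]
            rfl
          have e2 : (mach T l).l (stp a b c) (some (some (some o))) = some (some none) := by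
            change some (some (upd T a b c)) = _
            rw [hu]
          rw [e1, e2]
          exact ⟨(dead_run T l s hs.tail).1, List.mem_cons_self⟩
        · have e1 : (mach T l).d (stp a b c) (some (some (some o))) = stp b c o := by
            change (if (upd T a b c).isSome then _ else _) = _
            rw [hu]
            rfl
          rw [e1]
          exact ⟨h1, List.mem_cons_of_mem _ h2⟩

theorem seg_run (l : List Γ) (X Y : ℤ → Γ × Option Λ) (m : ℕ) (i : ℤ)
    (h : ∀ j, i ≤ j → j < i + m → upd T (X (j - 3)) (X (j - 2)) (X (j - 1)) = some (Y j)) :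
    (mach T l).run (stp (X (i - 3)) (X (i - 2)) (X (i - 1))) (seg X i m) =
      stp (X (i + m - 3)) (X (i + m - 2)) (X (i + m - 1)) ∧
    (mach T l).out (stp (X (i - 3)) (X (i - 2)) (X (i - 1))) (seg X i m) = seg Y i m := by
  induction m generalizing i with
  | zero =>
    simp only [seg, run, out]
    exact ⟨by simp, trivial⟩
  | succ m ih =>
    have h0 := h i le_rfl (by push_cast; omega)
    have e1 : (mach T l).d (stp (X (i - 3)) (X (i - 2)) (X (i - 1))) (some (some (some (X i)))) =
        stp (X (i - 2)) (X (i - 1)) (X i) := by
      change (if (upd T _ _ _).isSome then _ else _) = _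
      rw [h0]
      rfl
    have e2 : (mach T l).l (stp (X (i - 3)) (X (i - 2)) (X (i - 1))) (some (some (some (X i)))) =
        some (some (some (Y i))) := by
      change some (some (upd T _ _ _)) = _
      rw [h0]
    simp only [seg, run, out]
    rw [e1, e2]
    have h1 := ih (i + 1) (fun j hj hj' => h j (by omega) (by push_cast; omega))
    rw [show i + 1 - 3 = i - 2 by ring, show i + 1 - 2 = i - 1 by ring,
      show i + 1 - 1 = i by ring] at h1
    rw [h1.1, h1.2]
    refine ⟨?_, rfl⟩
    push_cast
    rw [show i + (m + 1 : ℤ) = i + 1 + m by ring]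

theorem seg_halt (l : List Γ) (X : ℤ → Γ × Option Λ) (m : ℕ) (i : ℤ)
    (h : ∃ j, i ≤ j ∧ j < i + m ∧ upd T (X (j - 3)) (X (j - 2)) (X (j - 1)) = none) :
    (mach T l).run (stp (X (i - 3)) (X (i - 2)) (X (i - 1))) (seg X i m) = dead ∧
    some (some none) ∈
      (mach T l).out (stp (X (i - 3)) (X (i - 2)) (X (i - 1))) (seg X i m) := by
  induction m generalizing i with
  | zero =>
    obtain ⟨j, h1, h2, -⟩ := h
    exfalso
    simp at h2
    omega
  | succ m ih =>
    simp only [seg, run, out]
    rcases hu : upd T (X (i - 3)) (X (i - 2)) (X (i - 1)) with _ | y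
    · have e1 : (mach T l).d (stp (X (i - 3)) (X (i - 2)) (X (i - 1)))
          (some (some (some (X i)))) = dead := by
        change (if (upd T _ _ _).isSome then _ else _) = _
        rw [hu]
        rfl
      have e2 : (mach T l).l (stp (X (i - 3)) (X (i - 2)) (X (i - 1)))
          (some (some (some (X i)))) = some (some none) := by
        change some (some (upd T _ _ _)) = _
        rw [hu]
      rw [e1, e2]
      exact ⟨(dead_run T l _ (good_seg _ _ _)).1, List.mem_cons_self⟩
    · have e1 : (mach T l).d (stp (X (i - 3)) (X (i - 2)) (X (i - 1)))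
          (some (some (some (X i)))) = stp (X (i - 2)) (X (i - 1)) (X i) := by
        change (if (upd T _ _ _).isSome then _ else _) = _
        rw [hu]
        rfl
      rw [e1]
      obtain ⟨j, h1, h2, h3⟩ := h
      have h4 : i ≠ j := by
        rintro rfl
        rw [hu] at h3
        simp at h3
      have h5 := ih (i + 1) ⟨j, by omega, by push_cast at h2; omega, h3⟩
      rw [show i + 1 - 3 = i - 2 by ring, show i + 1 - 2 = i - 1 by ring,
        show i + 1 - 1 = i by ring] at h5
      exact ⟨h5.1, List.mem_cons_of_mem _ h5.2⟩

theorem init_run (l : List Γ) (hl : l ≠ []) (s : List (Lt (Γ × Option Λ))) (hs : Good s) (i : ℕ) :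
    (mach T l).run (.inr ⟨min i l.length, by omega⟩) s =
      .inr ⟨min (i + s.length) l.length, by omega⟩ ∧
    (mach T l).out (.inr ⟨min i l.length, by omega⟩) s =
      seg (cell (ainit l)) i s.length := by
  induction s generalizing i with
  | nil =>
    simp only [run, out, List.length_nil, seg]
    exact ⟨by simp, trivial⟩
  | cons a s ih =>
    obtain ⟨o, rfl⟩ := hs a List.mem_cons_self
    obtain ⟨h1, h2⟩ := ih hs.tail (i + 1)
    have hl' : 0 < l.length := List.length_pos_iff.2 hl
    have e1 : (mach T l).d (.inr ⟨min i l.length, by omega⟩) (some (some o)) =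
        .inr ⟨min (i + 1) l.length, by omega⟩ := by
      change Sum.inr _ = _
      congr 2
      simp only
      omega
    have e2 : (mach T l).l (.inr ⟨min i l.length, by omega⟩) (some (some o)) =
        some (some (some (cell (ainit l) i))) := by
      change some (some (some (W l (min i l.length)))) = _
      congr 3
      unfold W cell ainit
      simp only [Int.natCast_nonneg, if_true, Int.toNat_natCast, Nat.cast_eq_zero]
      by_cases hi : i ≤ l.length
      · rw [min_eq_left hi]
      · rw [min_eq_right (by omega), if_neg (by omega), if_neg (by omega)]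
        congr 1
        rw [List.getI_eq_default _ le_rfl, List.getI_eq_default _ (by omega)]
    simp only [run, out, List.length_cons, seg]
    rw [e1, e2, h1, h2]
    refine ⟨?_, by push_cast; rfl⟩
    congr 2
    omega

end

end Pool.Agent.Q221.WeakReset
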